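import Pool.Agent.Helper18_PP.StmtsC
import Pool.Agent.Helper21_PP.Tsb
import Pool.Agent.Helper51_PP.Pip
import Pool.Agent.Helper63_PP.Bij

/-!
# Squad PP, part CYD, module CCP: the characters of a direct power
-/

open scoped BigOperators

noncomputable section

namespace Pool.Agent.PP.H90.C

open Pool.Agent.Helper51_AWC Pool.Agent.Helper79_WRA Pool.Agent.PP

variable {F K : Type} [Field F] [Group K] {p : ℕ}

/-- the power of a subgroup as a group of functions -/
def e0 (X : Subgroup K) : pwS p X ≃* (Fin (p + 1) → X) where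
  toFun x j := ⟨(x : Fin (p + 1) → K) j, H63.mem_pwS.1 x.2 j⟩
  invFun y := ⟨fun j => (y j : K), H63.mem_pwS.2 fun j => (y j).2⟩
  left_inv _ := rfl
  right_inv _ := rfl
  map_mul' _ _ := rfl

theorem pwF_apply (X : Subgroup K) (ψ : X → F) (x : pwS p X) :
    pwF ψ (pwS p X) x = ∏ j, ψ (e0 X x j) := by
  unfold pwF
  refine Finset.prod_congr rfl fun j _ => ?_
  have h : (x : Fin (p + 1) → K) j ∈ X := H63.mem_pwS.1 x.2 j
  rw [ext0, dif_pos h]
  rfl

/-- the restriction of an automorphism -/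
def resE {X : Subgroup K} (γ : MulAut K) (h : ∀ t, γ t ∈ X ↔ t ∈ X) : X ≃* X where
  toFun t := ⟨γ t, (h t).2 t.2⟩
  invFun t := ⟨γ⁻¹ t, (h _).1 (by rw [MulAut.apply_inv_self]; exact t.2)⟩
  left_inv t := Subtype.ext (MulAut.inv_apply_self K γ t)
  right_inv t := Subtype.ext (MulAut.apply_inv_self K γ t)
  map_mul' s t := Subtype.ext (map_mul γ (s : K) (t : K))

theorem actF_prod [Finite K] (X : Subgroup K) (f₀ : K → F) (φ : Fin (p + 1) → X → F) :
    actF (fun t : pwS p X => ∏ j, f₀ ((t : Fin (p + 1) → K) j)) (fun x => ∏ j, φ j (e0 X x j)) =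
      fun x => ∏ j, actF (fun t : X => f₀ t) (φ j) (e0 X x j) := by
  classical
  have := Fintype.ofFinite X
  funext x
  unfold actF
  have h1 : ∀ t : pwS p X, (∏ j, f₀ ((t : Fin (p + 1) → K) j)) * ∏ j, φ j (e0 X (t * x) j) =
      (fun y : Fin (p + 1) → X => ∏ j, (f₀ (y j) * φ j (y j * e0 X x j))) ((e0 X).toEquiv t) := by
    intro t
    show _ = ∏ j, (f₀ (e0 X t j) * φ j (e0 X t j * e0 X x j))
    rw [Finset.prod_mul_distrib]
    rfl
  refine (finsum_congr h1).trans ((finsum_comp_equiv (e0 (p := p) X).toEquiv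
    (f := fun y : Fin (p + 1) → X => ∏ j, (f₀ (y j) * φ j (y j * e0 X x j)))).trans ?_)
  simp only [finsum_eq_sum_of_fintype]
  rw [Finset.prod_univ_sum, Fintype.piFinset_univ]

theorem fixC_one {d : Finset (Subgroup K)} : FixC (1 : MulAut K) d := by
  intro D _
  ext x
  constructor
  · rintro ⟨y, hy, rfl⟩
    exact hy
  · intro hx
    exact ⟨x, hx, rfl⟩

/-- a block acts on the characters of the stabiliser of a normal chain by `0` or `1` -/
theorem act_scal (the : TheStmt) {ℓ : ℕ} (hF : GoodF ℓ F) [Finite K] {e : Finset (Subgroup K)}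
    (he : e ∈ chainsOn (psubIn ℓ (⊤ : Subgroup K)) ⊥) (hne : NormalChain e) {f₀ : K → F}
    (hf : IsBlk f₀) {ψ : stab e → F} (hψ : ψ ∈ IBr F (stab e)) :
    ∃ c : F, c * c = c ∧ actF (fun t : stab e => f₀ t) ψ = c • ψ := by
  obtain ⟨n, ρ, hρ, rfl⟩ := hψ
  have hcl : IsCl (fun t : stab e => f₀ t) := fun x y => hf.1.1 x y
  obtain ⟨c, hc, hc2, _⟩ := H20.eig F (stab e) n ρ hρ _ hcl
  refine ⟨c, ?_, hc2⟩
  have hcf : ∀ n y, f₀ ((1 : MulAut K)⁻¹ n * y * n⁻¹) = f₀ y := fun n y => hf.1.1 y n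
  have h1 := the ℓ F hF K e he hne n ρ hρ 1 1 fixC_one fixC_one f₀ f₀ hcf hcf 1 (by
    intro h h' hh
    have h2 : h' = h := Subtype.ext hh
    rw [h2, Units.val_one, one_mul, mul_one])
  have h3 : mulF (fun y => f₀ ((1 : MulAut K) y)) f₀ = f₀ := hf.1.2
  rw [h3, Units.val_one, mul_one, one_mul, hc, ← map_mul] at h1
  have hn : NeZero n := ⟨hρ.1.ne'⟩
  have h4 := congrFun (congrFun h1 0) 0
  simpa [Matrix.scalar_apply] using h4

theorem exists_ne {X : Type} [Group X] [Finite X] {ψ : X → F} (hψ : ψ ∈ IBr F X) :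
    ∃ y, ψ y ≠ 0 := by
  obtain ⟨n, ρ, hρ, rfl⟩ := hψ
  by_contra h
  push Not at h
  exact H75.tr_ne_zero hρ (funext h)

/-- **CCP.** -/
theorem ccp (the : TheStmt) (pip : PipStmt) : CcpStmt := by
  intro ℓ _ F _ hF K _ _ p f₀ αs β₀ α β κ w wi hP e he hne n μ hα hβ
  rw [H63.stab_pwC]
  obtain ⟨P1, P2, P3⟩ := pip ℓ F hF (stab e) (p + 1)
  have hγ : ∀ j t, tw (αs j) (n j) t ∈ stab e ↔ t ∈ stab e := fun j => H21.FixC.stab_iff (hα j)
  have hδ : ∀ t, tw β₀ μ t ∈ stab e ↔ t ∈ stab e := H21.FixC.stab_iff hβ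
  have hfun : ∀ ψ : stab e → F, pwF ψ (pwS p (stab e)) = fun x => ∏ j, ψ (e0 (stab e) x j) :=
    fun ψ => funext (pwF_apply _ ψ)
  -- coordinates of the twisted automorphisms
  have hca : ∀ (x : Fin (p + 1) → K) (j : Fin (p + 1)),
      tw α n x j = tw (αs j) (n j) (x j) := by
    intro x j
    rw [H63.tw_apply, hP.al, H63.tw_apply]
    rfl
  refine ⟨?_, ?_, ?_⟩
  · rintro ψ ⟨⟨h1, h2, _, h4⟩, h5⟩
    show pwF ψ (pwS p (stab e)) ∈ _
    refine ⟨?_, ?_, ?_, ?_⟩
    · rw [hfun]
      exact H51.ibr_equiv (e0 (stab e)) (P1 (fun _ => ψ) fun _ => h1)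
    · rw [hfun]
      have h6 := actF_prod (p := p) (stab e) f₀ (fun _ => ψ)
      rw [h2] at h6
      exact h6
    · intro h h' hh
      rw [pwF_apply, pwF_apply]
      refine Finset.prod_congr rfl fun j _ => ?_
      apply h5 j
      show (h' : Fin (p + 1) → K) j = _
      rw [hh, hca]
      rfl
    · intro h h' hh
      rw [pwF_apply, pwF_apply, Fin.prod_univ_succ, Fin.prod_univ_castSucc, mul_comm]
      congr 1
      · refine Finset.prod_congr rfl fun j _ => ?_
        congr 1
        apply Subtype.ext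
        show (h' : Fin (p + 1) → K) j.succ = (h : Fin (p + 1) → K) j.castSucc
        rw [hh, H63.shift_succ hP.sh]
      · apply h4
        show (h' : Fin (p + 1) → K) 0 = tw β₀ μ ((h : Fin (p + 1) → K) (Fin.last p))
        rw [hh, H63.shift_zero hP.sh]
  · intro ψ hψ ψ' hψ' h
    have h1 := P3 (fun _ => ψ) (fun _ => ψ') (fun _ => hψ.1.1) (fun _ => hψ'.1.1) (by
      intro x
      have h2 := congrFun h ((e0 (stab e)).symm x)
      simp only [pwF_apply, MulEquiv.apply_symm_apply] at h2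
      exact h2)
    exact congrFun h1 0
  · rintro φ ⟨h1, h2, h3, h4⟩
    obtain ⟨φs, hφs, hφ⟩ := P2 _ (H51.ibr_equiv (e0 (stab e)).symm h1)
    have hφ' : ∀ y : Fin (p + 1) → stab e, φ ((e0 (stab e)).symm y) = ∏ j, φs j (y j) :=
      fun y => congrFun hφ y
    -- the shift
    have hsh : (Fin.snoc (α := fun _ => stab e → F) (fun j : Fin p => φs j.succ)
        (fun t => φs 0 (resE (tw β₀ μ) hδ t)) : Fin (p + 1) → stab e → F) = φs := by
      apply P3
      · intro j
        refine Fin.lastCases ?_ (fun i => ?_) j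
        · rw [Fin.snoc_last]
          exact H51.ibr_equiv (resE (tw β₀ μ) hδ) (hφs 0)
        · rw [Fin.snoc_castSucc]
          exact hφs _
      · exact hφs
      · intro y
        let y' : Fin (p + 1) → stab e := Fin.cons (α := fun _ => stab e)
          (resE (tw β₀ μ) hδ (y (Fin.last p))) (fun j => y j.castSucc)
        have h5 : φ ((e0 (stab e)).symm y') = φ ((e0 (stab e)).symm y) := by
          apply h4
          funext j
          refine Fin.cases ?_ (fun i => ?_) j
          · rw [H63.shift_zero hP.sh]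
            rfl
          · rw [H63.shift_succ hP.sh]
            rfl
        rw [hφ', hφ'] at h5
        rw [← h5, Fin.prod_univ_castSucc, Fin.prod_univ_succ, mul_comm]
        simp only [Fin.snoc_last, Fin.snoc_castSucc]
        rfl
    have hs1 : ∀ j : Fin p, φs j.succ = φs j.castSucc := by
      intro j
      have h5 := congrFun hsh j.castSucc
      rw [Fin.snoc_castSucc] at h5
      exact h5
    have hs2 : (fun t => φs 0 (resE (tw β₀ μ) hδ t)) = φs (Fin.last p) := by
      have h5 := congrFun hsh (Fin.last p)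
      rw [Fin.snoc_last] at h5
      exact h5
    have hall : ∀ j, φs j = φs 0 := by
      intro j
      induction j using Fin.induction with
      | zero => rfl
      | succ j ih => rw [hs1, ih]
    set ψ := φs 0 with hψ
    have hφ2 : ∀ y : Fin (p + 1) → stab e, φ ((e0 (stab e)).symm y) = ∏ j, ψ (y j) := by
      intro y
      rw [hφ']
      exact Finset.prod_congr rfl fun j _ => by rw [hall j]
    have hβψ : ∀ t : stab e, ψ (resE (tw β₀ μ) hδ t) = ψ t := by
      intro t
      have h5 := congrFun hs2 t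
      rw [hall] at h5
      exact h5
    have hαψ : ∀ j, ∀ t : stab e, ψ (resE (tw (αs j) (n j)) (hγ j) t) = ψ t := by
      intro j t
      have h5 := P3 (fun j t => ψ (resE (tw (αs j) (n j)) (hγ j) t)) (fun _ => ψ)
        (fun j => H51.ibr_equiv (resE (tw (αs j) (n j)) (hγ j)) (hφs 0)) (fun _ => hφs 0) (by
          intro y
          have h6 : φ ((e0 (stab e)).symm fun j => resE (tw (αs j) (n j)) (hγ j) (y j)) =
              φ ((e0 (stab e)).symm y) := by
            apply h3
            funext j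
            rw [hca]
            rfl
          rw [hφ2, hφ2] at h6
          exact h6)
      exact congrFun (congrFun h5 j) t
    have hφ3 : φ = fun x => ∏ j, ψ (e0 (stab e) x j) := by
      funext x
      have h5 := hφ2 (e0 (stab e) x)
      rw [MulEquiv.symm_apply_apply] at h5
      exact h5
    obtain ⟨c, hcc, hc⟩ := act_scal the hF he hne hP.blk (hφs 0)
    have hact : actF (fun t : stab e => f₀ t) ψ = ψ := by
      have h6 := actF_prod (p := p) (stab e) f₀ (fun _ => ψ)
      rw [← hφ3, h2, hc, hφ3] at h6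
      obtain ⟨y, hy⟩ := exists_ne (hφs 0)
      have h7 := congrFun h6 ((e0 (stab e)).symm fun _ => y)
      simp only [MulEquiv.apply_symm_apply, Pi.smul_apply, smul_eq_mul, Finset.prod_const,
        Finset.card_univ, Fintype.card_fin] at h7
      have hc0 : c ≠ 0 := by
        rintro rfl
        rw [zero_mul, zero_pow (Nat.succ_ne_zero p)] at h7
        exact pow_ne_zero _ hy h7
      have hc1 : c = 1 := mul_right_cancel₀ hc0 (by rw [hcc, one_mul])
      rw [hc, hc1, one_smul]
    refine ⟨ψ, ⟨⟨hφs 0, hact, ?_, ?_⟩, ?_⟩, ?_⟩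
    · intro h h' hh
      have h5 : h' = resE (tw (αs 0) (n 0)) (hγ 0) h := Subtype.ext hh
      rw [h5, hαψ]
    · intro h h' hh
      have h5 : h' = resE (tw β₀ μ) hδ h := Subtype.ext hh
      rw [h5, hβψ]
    · intro j h h' hh
      have h5 : h' = resE (tw (αs j) (n j)) (hγ j) h := Subtype.ext hh
      rw [h5, hαψ]
    · show pwF ψ (pwS p (stab e)) = φ
      rw [hfun, hφ3]

end Pool.Agent.PP.H90.C
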