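import Pool.Agent.Helper18_PP.StmtsC
import Pool.Agent.Helper21_PP.Inx

/-!
# Squad PP, part CYD, module CNT: the number of the `n_j`
-/

open scoped BigOperators

noncomputable section

namespace Pool.Agent.PP.H90

open Pool.Agent.Helper51_AWC Pool.Agent.Helper79_WRA

variable {F K : Type} [Field F] [Group K]

/-- the elements `n` such that `α ∘ inn(n)` fixes the chain and the character -/
def SS (e : Finset (Subgroup K)) (ψ : stab e → F) (α : MulAut K) : Set K :=
  {n | FixC (tw α n) e ∧ ∀ h h' : stab e, (h' : K) = tw α n h → ψ h' = ψ h}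

theorem fixC_conj {e : Finset (Subgroup K)} {t : K} :
    FixC (MulAut.conj t) e ↔ t ∈ stab e := by
  rw [H97.mem_stab]
  constructor
  · intro h D hD
    rw [Subgroup.mem_normalizer_iff_map_conj_eq]
    exact h D hD
  · intro h D hD
    have h1 := h D hD
    rw [Subgroup.mem_normalizer_iff_map_conj_eq] at h1
    exact h1

theorem tw_mul' (α : MulAut K) (n t : K) : tw α (n * t) = tw α n * MulAut.conj t := by
  rw [tw, tw, map_mul, mul_assoc]

theorem cl_of_ibr {ψ : K → F} (hψ : ψ ∈ IBr F K) (t h : K) : ψ (t * h * t⁻¹) = ψ h := by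
  obtain ⟨n, ρ, _, rfl⟩ := hψ
  rw [tr, tr, map_mul, Matrix.trace_mul_comm, ← map_mul]
  congr 2
  group

theorem card_SS {e : Finset (Subgroup K)} {ψ : stab e → F} (hψ : ψ ∈ IBr F (stab e))
    {α : MulAut K} {n : K} (hn : n ∈ SS e ψ α) : Nat.card (SS e ψ α) = Nat.card (stab e) := by
  have key : ∀ t : K, n * t ∈ SS e ψ α ↔ t ∈ stab e := by
    intro t
    constructor
    · intro h
      have h1 := H21.FixC.mul (H21.FixC.inv hn.1) h.1
      rw [tw_mul', inv_mul_cancel_left] at h1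
      exact fixC_conj.1 h1
    · intro ht
      refine ⟨?_, ?_⟩
      · rw [tw_mul']
        exact H21.FixC.mul hn.1 (fixC_conj.2 ht)
      · intro h h' hh
        have h1 : (h' : K) = tw α n ((⟨t, ht⟩ * h * (⟨t, ht⟩ : stab e)⁻¹ : stab e) : K) := by
          rw [hh, tw_mul']
          rfl
        rw [hn.2 _ _ h1]
        exact cl_of_ibr hψ _ _
  symm
  refine Nat.card_congr (Equiv.ofBijective (fun t : stab e => (⟨n * t, (key t).2 t.2⟩ :
    SS e ψ α)) ⟨?_, ?_⟩)
  · intro a b hab
    have h1 := congrArg Subtype.val hab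
    exact Subtype.ext (mul_left_cancel h1)
  · rintro ⟨m, hm⟩
    have h1 : n * (n⁻¹ * m) ∈ SS e ψ α := by rwa [mul_inv_cancel_left]
    exact ⟨⟨n⁻¹ * m, (key _).1 h1⟩, Subtype.ext (mul_inv_cancel_left n m)⟩

theorem tw_step (κ α : MulAut K) (h n : K) :
    tw (κ * α) (α⁻¹ h * n) = tw κ h * tw α n := by
  ext x
  simp only [tw, MulAut.mul_apply, MulAut.conj_apply, map_mul, map_inv, MulAut.apply_inv_self,
    mul_inv_rev, mul_assoc]

theorem fixC_of_top {e : Finset (Subgroup K)} {γ : MulAut K} (h : ∀ r ∈ top e, γ r = r) :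
    FixC γ e := by
  intro D hD
  have hle : D ≤ top e := le_sSup (by exact_mod_cast hD)
  ext x
  constructor
  · rintro ⟨y, hy, rfl⟩
    have h1 : γ.toMonoidHom y = y := h y (hle hy)
    rw [h1]
    exact hy
  · intro hx
    exact ⟨x, hx, h x (hle hx)⟩

/-- CNT from INX. -/
theorem cnt_of (inx : InxStmt) : CntStmt := by
  intro ℓ _ F _ hF K _ _ p f₀ αs β₀ α β κ w wi hP e he hne n₀ hfix ψ hψ hact hinv j
  have hκ : ∀ j : Fin p, αs j.succ = κ j.succ * αs j.castSucc := by
    intro j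
    ext x
    have h1 := hP.kap (β (α fun _ => x)) j.succ
    have h2 : kap α β (β (α fun _ => x)) = α (β fun _ => x) := by
      simp only [kap, MulAut.mul_apply, MulAut.inv_apply_self]
    rw [h2, hP.al, (hP.sh _).2, (hP.sh _).2, hP.al] at h1
    exact h1
  have hex : ∀ j : Fin (p + 1), ∃ n, n ∈ SS e ψ (αs j) := by
    intro j
    induction j using Fin.induction with
    | zero => exact ⟨n₀, hfix, hinv⟩
    | succ j ih =>
      obtain ⟨n, hn⟩ := ih
      obtain ⟨⟨h, hh⟩, h2⟩ := inx ℓ F hF K e he hne f₀ (κ j.succ) (w j.succ) (wi j.succ) hP.blk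
        (hP.unt j.succ) ψ hψ hact
      have hfc : FixC (tw (κ j.succ) h) e := fixC_of_top hh
      refine ⟨(αs j.castSucc)⁻¹ h * n, ?_, ?_⟩
      · rw [hκ, tw_step]
        exact H21.FixC.mul hfc hn.1
      · intro t t' ht
        rw [hκ, tw_step] at ht
        have hm : tw (αs j.castSucc) n t ∈ stab e := H21.FixC.stab_aux hn.1 t.2
        rw [h2 h hfc ⟨_, hm⟩ t' ht]
        exact hn.2 t ⟨_, hm⟩ rfl
  obtain ⟨n, hn⟩ := hex j
  exact card_SS hψ hn

/-- **CNT.** -/
theorem cnt : CntStmt := cnt_of H21.inx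

end Pool.Agent.PP.H90
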