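import Pool.Agent.Helper98_PP.StmtsR2

/-!
# Squad PP, module THE: multiplicativity of the evaluation for normal chains
-/

open scoped BigOperators

noncomputable section

namespace Pool.Agent.PP.H90

open Pool.Agent.Helper51_AWC Pool.Agent.Helper79_WRA

variable {F Y : Type} [Field F] [Group Y]

/-- a representation of the subgroup `T` extended by zero -/
def ext {T : Subgroup Y} {n : ℕ} (ρ : T →* Matrix (Fin n) (Fin n) F) (y : Y) :
    Matrix (Fin n) (Fin n) F :=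
  open Classical in if h : y ∈ T then ρ ⟨y, h⟩ else 0

theorem ext_coe {T : Subgroup Y} {n : ℕ} (ρ : T →* Matrix (Fin n) (Fin n) F) (t : T) :
    ext ρ (t : Y) = ρ t := by
  classical
  simp [ext, t.2]

theorem ext_not {T : Subgroup Y} {n : ℕ} (ρ : T →* Matrix (Fin n) (Fin n) F) (y : Y)
    (h : y ∉ T) : ext ρ y = 0 := by
  classical
  simp [ext, h]

theorem ext_mul {T : Subgroup Y} {n : ℕ} (ρ : T →* Matrix (Fin n) (Fin n) F) (a b : Y)
    (ha : a ∈ T) (hb : b ∈ T) (hρa : ρ ⟨a, ha⟩ = 1) (hρb : ρ ⟨b, hb⟩ = 1) (y : Y) :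
    ext ρ (a * y * b) = ext ρ y := by
  by_cases hy : y ∈ T
  · have h1 : a * y * b = ((⟨a, ha⟩ * ⟨y, hy⟩ * ⟨b, hb⟩ : T) : Y) := rfl
    have h2 : ext ρ y = ρ ⟨y, hy⟩ := ext_coe ρ ⟨y, hy⟩
    rw [h1, ext_coe, h2, map_mul, map_mul, hρa, hρb, one_mul, mul_one]
  · have h1 : a * y * b ∉ T := by
      intro h
      apply hy
      have h2 := T.mul_mem (T.mul_mem (T.inv_mem ha) h) (T.inv_mem hb)
      have h3 : a⁻¹ * (a * y * b) * b⁻¹ = y := by group
      rwa [h3] at h2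
    rw [ext_not ρ _ h1, ext_not ρ _ hy]

theorem sum_coe {T : Subgroup Y} [Fintype Y] [Fintype T] {V : Type} [AddCommMonoid V]
    (f : Y → V) (hf : ∀ y, y ∉ T → f y = 0) : ∑ t : T, f t = ∑ y, f y := by
  classical
  have h1 := Finset.sum_subtype (Finset.univ.filter (fun y => y ∈ T)) (p := fun y => y ∈ T)
    (F := (inferInstance : Fintype T)) (by simp) f
  have h2 : ∑ y ∈ Finset.univ.filter (fun y => y ∈ T), f y = ∑ y, f y := by
    apply Finset.sum_subset (Finset.filter_subset _ _)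
    intro y _ hy
    apply hf
    intro hy'
    exact hy (by simp [hy'])
  rw [← h2, h1]

/-- Pairs of elements. -/
structure PY (Y : Type) where
  /-- first member -/
  a : Y
  /-- second member -/
  b : Y

/-- Pairs of elements. -/
def PY.equiv (Y : Type) : PY Y ≃ Y × Y where
  toFun p := (p.a, p.b)
  invFun p := ⟨p.1, p.2⟩
  left_inv _ := rfl
  right_inv _ := rfl

instance [Finite Y] : Finite (PY Y) := Finite.of_equiv _ (PY.equiv Y).symm

/-- The action of `R` on pairs. -/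
@[instance_reducible] def act (R : Subgroup Y) (α β : MulAut Y) : MulAction R (PY Y) where
  smul r p := ⟨α (β r) * p.a * (β r)⁻¹, β r * p.b * (r : Y)⁻¹⟩
  one_smul := by
    rintro ⟨g, h⟩
    change PY.mk (α (β ((1 : R) : Y)) * g * (β ((1 : R) : Y))⁻¹)
      (β ((1 : R) : Y) * h * ((1 : R) : Y)⁻¹) = _
    simp
  mul_smul := by
    rintro r s ⟨g, h⟩
    change PY.mk (α (β ((r * s : R) : Y)) * g * (β ((r * s : R) : Y))⁻¹)
      (β ((r * s : R) : Y) * h * ((r * s : R) : Y)⁻¹) =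
      PY.mk (α (β r) * (α (β s) * g * (β s)⁻¹) * (β r)⁻¹) (β r * (β s * h * (s : Y)⁻¹) * (r : Y)⁻¹)
    simp only [Subgroup.coe_mul, map_mul, mul_inv_rev, mul_assoc]

omit [Group Y] in
theorem finsum_py [Finite Y] {V : Type} [AddCommMonoid V] (f : Y → Y → V) :
    ∑ᶠ p : PY Y, f p.a p.b = ∑ᶠ p : Y × Y, f p.1 p.2 :=
  finsum_eq_of_bijective (PY.equiv Y) (PY.equiv Y).bijective fun _ => rfl

theorem key (nls : NlsStmt) (orb : OrbStmt) (ℓ : ℕ) (hF : GoodF ℓ F) [Finite Y]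
    (T R : Subgroup Y) (hRT : R ≤ T) (hTR : T ≤ Subgroup.normalizer (R : Set Y))
    (hR : IsPGroup ℓ R) (α β : MulAut Y) (hαR : ∀ r ∈ R, α r ∈ R) (hβR : ∀ r ∈ R, β r ∈ R)
    (hβR' : ∀ r ∈ R, ∃ s ∈ R, β s = r)
    (hα : ∀ h, (∀ r ∈ R, h * r * h⁻¹ = α r) → h ∈ T)
    (hβ : ∀ h, (∀ r ∈ R, h * r * h⁻¹ = β r) → h ∈ T)
    (u v : Y → F) (hu : ∀ n y, u (α n * y * n⁻¹) = u y) (hv : ∀ n y, v (β n * y * n⁻¹) = v y)
    (n : ℕ) (ρ : T →* Matrix (Fin n) (Fin n) F) (hρ : IsIrr ρ) :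
    ev ρ (fun t : T => u t) * ev ρ (fun t : T => v t) = ev ρ (fun t : T => mulF u v t) := by
  classical
  have := Fintype.ofFinite Y
  have : Fintype T := Fintype.ofFinite T
  -- `R` acts trivially
  have hN : (R.subgroupOf T).Normal := by
    refine ⟨fun a ha g => ?_⟩
    rw [Subgroup.mem_subgroupOf] at ha ⊢
    have h1 := hTR g.2
    rw [Subgroup.mem_normalizer_iff] at h1
    exact (h1 a).1 ha
  have hPg : IsPGroup ℓ (R.subgroupOf T) := hR.comap_of_injective T.subtype T.subtype_injective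
  have htriv : ∀ a (ha : a ∈ R), ρ ⟨a, hRT ha⟩ = 1 := fun a ha =>
    (nls ℓ F hF T (R.subgroupOf T) hN hPg n ρ hρ).1 ⟨a, hRT ha⟩ ha
  -- the two functions on pairs
  let Φ : Y → Y → Matrix (Fin n) (Fin n) F := fun g h => (u g * v h) • ext ρ (g * h)
  let Φ₂ : Y → Y → Matrix (Fin n) (Fin n) F := fun g h => if g ∈ T ∧ h ∈ T then Φ g h else 0
  have e1 : ev ρ (fun t : T => mulF u v t) = ∑ᶠ p : PY Y, Φ p.a p.b := by
    rw [finsum_py Φ, finsum_eq_sum_of_fintype, Fintype.sum_prod_type]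
    unfold ev
    rw [finsum_eq_sum_of_fintype]
    have h1 : ∑ t : T, mulF u v t • ρ t = ∑ y, mulF u v y • ext ρ y := by
      rw [← sum_coe (T := T) (fun y => mulF u v y • ext ρ y)
        (fun y hy => by rw [ext_not ρ y hy, smul_zero])]
      exact Finset.sum_congr rfl fun t _ => by rw [ext_coe]
    rw [h1]
    have h2 : ∀ y, mulF u v y • ext ρ y = ∑ g, (u g * v (g⁻¹ * y)) • ext ρ y := by
      intro y
      unfold mulF
      rw [finsum_eq_sum_of_fintype, Finset.sum_smul]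
    rw [Finset.sum_congr rfl fun y _ => h2 y, Finset.sum_comm]
    refine Finset.sum_congr rfl fun g _ => ?_
    refine Fintype.sum_equiv (Equiv.mulLeft g⁻¹) _ _ fun y => ?_
    simp only [Φ, Equiv.coe_mulLeft, mul_inv_cancel_left]
  have e2 : ev ρ (fun t : T => u t) * ev ρ (fun t : T => v t) = ∑ᶠ p : PY Y, Φ₂ p.a p.b := by
    rw [finsum_py Φ₂, finsum_eq_sum_of_fintype, Fintype.sum_prod_type]
    unfold ev
    rw [finsum_eq_sum_of_fintype, finsum_eq_sum_of_fintype, Finset.sum_mul]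
    rw [← sum_coe (T := T) (fun g => ∑ h, Φ₂ g h) (fun g hg => by simp [Φ₂, hg])]
    refine Finset.sum_congr rfl fun g _ => ?_
    rw [Finset.mul_sum]
    rw [← sum_coe (T := T) (fun h => Φ₂ g h) (fun h hh => by simp [Φ₂, hh])]
    refine Finset.sum_congr rfl fun h _ => ?_
    have h3 : ext ρ ((g : Y) * h) = ρ (g * h) := ext_coe ρ (g * h)
    simp only [Φ₂, Φ, g.2, h.2, and_self, if_true, h3, map_mul, smul_mul_smul_comm]
  let := act R α β
  have i1 : ∀ (r : R) (p : PY Y), Φ (r • p).a (r • p).b = Φ p.a p.b := by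
    rintro r ⟨g, h⟩
    change (u (α (β r) * g * (β r)⁻¹) * v (β r * h * (r : Y)⁻¹)) •
      ext ρ (α (β r) * g * (β r)⁻¹ * (β r * h * (r : Y)⁻¹)) = (u g * v h) • ext ρ (g * h)
    rw [hu, hv]
    have h4 : α (β r) * g * (β r)⁻¹ * (β r * h * (r : Y)⁻¹) = α (β r) * (g * h) * (r : Y)⁻¹ := by
      group
    have m1 : α (β r) ∈ R := hαR _ (hβR _ r.2)
    have m2 : (r : Y)⁻¹ ∈ R := R.inv_mem r.2
    rw [h4, ext_mul ρ _ _ (hRT m1) (hRT m2) (htriv _ m1) (htriv _ m2)]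
  have i2 : ∀ (r : R) (p : PY Y), Φ₂ (r • p).a (r • p).b = Φ₂ p.a p.b := by
    rintro r ⟨g, h⟩
    have m1 : α (β r) ∈ T := hRT (hαR _ (hβR _ r.2))
    have m2 : (r : Y) ∈ T := hRT r.2
    have m3 : β r ∈ T := hRT (hβR _ r.2)
    have hh : (r • PY.mk g h).a ∈ T ∧ (r • PY.mk g h).b ∈ T ↔ g ∈ T ∧ h ∈ T := by
      change α (β r) * g * (β r)⁻¹ ∈ T ∧ β r * h * (r : Y)⁻¹ ∈ T ↔ _
      rw [Subgroup.mul_mem_cancel_right T (T.inv_mem m3), Subgroup.mul_mem_cancel_left T m1,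
        Subgroup.mul_mem_cancel_right T (T.inv_mem m2), Subgroup.mul_mem_cancel_left T m3]
    simp only [Φ₂]
    rw [i1]
    simp only [hh]
  rw [e1, e2, orb ℓ F _ R (PY Y) hF.prime hF.char hR (fun p => Φ p.a p.b) i1,
    orb ℓ F _ R (PY Y) hF.prime hF.char hR (fun p => Φ₂ p.a p.b) i2]
  refine finsum_congr fun p => finsum_congr fun hp => ?_
  obtain ⟨g, h⟩ := p
  rw [MulAction.mem_fixedPoints] at hp
  have hp1 : ∀ r : R, α (β r) * g * (β r)⁻¹ = g := fun r => congrArg PY.a (hp r)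
  have hp2 : ∀ r : R, β r * h * (r : Y)⁻¹ = h := fun r => congrArg PY.b (hp r)
  have mh : h ∈ T := by
    apply hβ
    intro r hr
    have h5 := hp2 ⟨r, hr⟩
    simp only at h5
    calc h * r * h⁻¹ = (β r * h * r⁻¹) * r * h⁻¹ := by rw [h5]
      _ = β r := by group
  have mg : g ∈ T := by
    apply hα
    intro s hs
    obtain ⟨r, hr, rfl⟩ := hβR' s hs
    have h5 := hp1 ⟨r, hr⟩
    simp only at h5
    calc g * β r * g⁻¹ = (α (β r) * g * (β r)⁻¹) * β r * g⁻¹ := by rw [h5]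
      _ = α (β r) := by group
  simp only [Φ₂, mg, mh, and_self, if_true]

theorem the (nls : NlsStmt) (orb : OrbStmt) : TheStmt := by
  intro ℓ F _ hF Y _ _ d hd hnc n ρ hρ γ₁ γ₂ hγ₁ hγ₂ w₁ w₂ hw₁ hw₂ A₂ hA
  classical
  have := Fintype.ofFinite Y
  have : Fintype (stab d) := Fintype.ofFinite (stab d)
  obtain ⟨hsub, hbot, hch⟩ := mem_chainsOn.1 hd
  obtain ⟨R, hRd, hRmax⟩ := exists_greatest hch ⟨_, hbot⟩
  have htop : top d = R := le_antisymm (sSup_le fun D hD => hRmax D hD) (le_sSup hRd)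
  have hRp : IsPGroup ℓ R := by
    have := hsub hRd
    simp only [psubIn, Set.Finite.mem_toFinset] at this
    exact this.2
  have hRT : R ≤ stab d := by
    unfold stab
    refine le_iInf fun D => le_iInf fun hD => ?_
    rw [← htop]
    exact hnc D hD
  have hTn : ∀ D ∈ d, stab d ≤ Subgroup.normalizer (D : Set Y) := fun D hD =>
    iInf_le_of_le D (iInf_le _ hD)
  -- automorphisms fixing the chain
  have hinv : ∀ γ : MulAut Y, FixC γ d → FixC γ⁻¹ d := by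
    intro γ hγ D hD
    conv_lhs => rw [← hγ D hD]
    rw [Subgroup.map_map]
    ext y
    simp
  have hmulc : ∀ γ δ : MulAut Y, FixC γ d → FixC δ d → FixC (γ * δ) d := by
    intro γ δ hγ hδ D hD
    have h1 : (γ * δ).toMonoidHom = γ.toMonoidHom.comp δ.toMonoidHom := rfl
    rw [h1, ← Subgroup.map_map, hδ D hD, hγ D hD]
  have hmem : ∀ γ : MulAut Y, FixC γ d → ∀ D ∈ d, ∀ r ∈ D, γ r ∈ D := by
    intro γ hγ D hD r hr
    have := Subgroup.mem_map_of_mem γ.toMonoidHom hr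
    rw [hγ D hD] at this
    exact this
  have hcen : ∀ γ : MulAut Y, FixC γ d → ∀ h, (∀ r ∈ R, h * r * h⁻¹ = γ r) → h ∈ stab d := by
    intro γ hγ h hh
    unfold stab
    simp only [Subgroup.mem_iInf]
    intro D hD
    rw [Subgroup.mem_normalizer_iff]
    have hDR := hRmax D hD
    intro x
    constructor
    · intro hx
      rw [hh x (hDR hx)]
      exact hmem γ hγ D hD x hx
    · intro hx
      -- `y := h x h⁻¹ ∈ D`, `γ⁻¹ y ∈ D` and `h (γ⁻¹ y) h⁻¹ = y`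
      have h1 : γ⁻¹ (h * x * h⁻¹) ∈ D := hmem γ⁻¹ (hinv γ hγ) D hD _ hx
      have h2 := hh _ (hDR h1)
      rw [MulAut.apply_inv_self] at h2
      have h3 : γ⁻¹ (h * x * h⁻¹) = x := by
        have h4 := congrArg (fun z => h⁻¹ * z * h) h2
        simpa [mul_assoc] using h4
      rwa [h3] at h1
  -- first step
  have hst : ∀ s ∈ stab d, γ₂ s ∈ stab d := by
    intro s hs
    unfold stab at hs ⊢
    simp only [Subgroup.mem_iInf] at hs ⊢
    intro D hD
    have h1 := hs D hD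
    rw [Subgroup.mem_normalizer_iff] at h1 ⊢
    intro x
    have h2 : x ∈ D ↔ γ₂⁻¹ x ∈ D := by
      constructor
      · exact hmem γ₂⁻¹ (hinv γ₂ hγ₂) D hD x
      · intro h
        have := hmem γ₂ hγ₂ D hD _ h
        rwa [MulAut.apply_inv_self] at this
    have h3 : γ₂ s * x * (γ₂ s)⁻¹ ∈ D ↔ s * γ₂⁻¹ x * s⁻¹ ∈ D := by
      constructor
      · intro h
        have := hmem γ₂⁻¹ (hinv γ₂ hγ₂) D hD _ h
        rwa [map_mul, map_mul, map_inv, MulAut.inv_apply_self] at this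
      · intro h
        have := hmem γ₂ hγ₂ D hD _ h
        rwa [map_mul, map_mul, map_inv, MulAut.apply_inv_self] at this
    exact (h2.trans (h1 _)).trans h3.symm
  have hstep : ev ρ (fun t : stab d => w₁ t) * A₂ =
      A₂ * ev ρ (fun t : stab d => w₁ (γ₂ t)) := by
    unfold ev
    rw [finsum_eq_sum_of_fintype, finsum_eq_sum_of_fintype, Finset.sum_mul, Finset.mul_sum]
    let e : stab d → stab d := fun s => ⟨γ₂ s, hst s s.2⟩
    have he : Function.Bijective e := by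
      refine (Finite.injective_iff_bijective).1 fun a b hab => ?_
      exact Subtype.ext (γ₂.injective (congrArg Subtype.val hab))
    rw [← he.sum_comp]
    refine Finset.sum_congr rfl fun s _ => ?_
    rw [smul_mul_assoc, mul_smul_comm, hA s (e s) rfl]
  have hu : ∀ n y, (fun y => w₁ (γ₂ y)) ((γ₂⁻¹ * γ₁⁻¹ * γ₂) n * y * n⁻¹) =
      (fun y => w₁ (γ₂ y)) y := by
    intro n y
    simp only [map_mul, map_inv, MulAut.mul_apply, MulAut.apply_inv_self]
    exact hw₁ (γ₂ n) (γ₂ y)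
  have hα : FixC (γ₂⁻¹ * γ₁⁻¹ * γ₂) d :=
    hmulc _ _ (hmulc _ _ (hinv _ hγ₂) (hinv _ hγ₁)) hγ₂
  rw [hstep, mul_assoc]
  congr 1
  refine key nls orb ℓ hF (stab d) R hRT (hTn R hRd) hRp (γ₂⁻¹ * γ₁⁻¹ * γ₂) γ₂⁻¹
    (hmem _ hα R hRd) (hmem _ (hinv _ hγ₂) R hRd) ?_ (hcen _ hα) (hcen _ (hinv _ hγ₂))
    (fun y => w₁ (γ₂ y)) w₂ hu hw₂ n ρ hρ
  intro r hr
  exact ⟨γ₂ r, hmem _ hγ₂ R hRd r hr, by rw [MulAut.inv_apply_self]⟩

end Pool.Agent.PP.H90
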